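import Pool.Agent.helper24.IC.Spec

set_option autoImplicit false

namespace Pool.Agent.IC

universe u

theorem LEN : LEN_stmt.{u} := by
  intro T _ I _ m q hqm f
  by_contra hcon
  have hinj : Function.Injective f := by
    rw [injective_iff_map_eq_zero]
    intro c hc
    by_contra hc0
    exact hcon ⟨c, hc0, hc⟩
  have h1 := Module.length_le_of_injective f hinj
  have h2 : ∀ n : ℕ, Module.length T (Fin n → I) = n := by
    intro n
    rw [Module.length_pi_of_fintype]
    simp
  rw [h2, h2] at h1
  have h3 : m ≤ q := by exact_mod_cast h1
  omega

end Pool.Agent.IC
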